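import Pool.Agent.Helper14.BSC.Stmts

set_option autoImplicit false

/-!
# Module EXTW: invariant extension to `Ω` of a valuation ring with residue field `k`
-/

namespace Pool.Agent.Helper14.BSC

open Finset

section

variable {k Ω : Type} [Field k] [Field Ω] [Algebra k Ω]

/-- independence of characters, dual form -/
theorem extw_dual {E A : Type} [Field E] [Field A] [Algebra k E] [Algebra k A]
    [DecidableEq (E →ₐ[k] A)] (T : Finset (E →ₐ[k] A)) (f₀ : E →ₐ[k] A) :
    ∃ β : E →₀ A, ∀ f ∈ T, (β.sum fun α c => c * f α) = if f = f₀ then 1 else 0 := by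
  classical
  let v : E → (T → A) := fun α f => f.1 α
  have htop : Submodule.span A (Set.range v) = ⊤ := by
    by_contra hne
    obtain ⟨φ, hφ0, hφ⟩ := Submodule.exists_le_ker_of_lt_top _ (lt_top_iff_ne_top.2 hne)
    apply hφ0
    have hli := linearIndependent_monoidHom E A
    have hinj : Function.Injective (fun f : T => ((f.1 : E →ₐ[k] A) : E →* A)) := by
      intro f g hfg
      apply Subtype.ext
      apply AlgHom.ext
      intro x
      exact congrArg (fun F : E →* A => F x) hfg
    have hli2 := hli.comp _ hinj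
    rw [Fintype.linearIndependent_iff] at hli2
    have h0 := hli2 (fun f => φ (Pi.single f 1)) (by
      funext x
      have h1 : v x ∈ LinearMap.ker φ := hφ (Submodule.subset_span ⟨x, rfl⟩)
      rw [LinearMap.mem_ker] at h1
      rw [Finset.sum_apply]
      refine Eq.trans ?_ h1
      have h2 : v x = ∑ f : T, (v x f) • (Pi.single f 1 : T → A) := by
        funext g
        rw [Finset.sum_apply]
        simp [Pi.single_apply]
      conv_rhs => rw [h2, map_sum]
      refine Finset.sum_congr rfl fun f _ => ?_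
      rw [map_smul, smul_eq_mul]
      change φ (Pi.single f 1) * f.1 x = f.1 x * φ (Pi.single f 1)
      ring)
    apply LinearMap.pi_ext'
    intro f
    apply LinearMap.ext
    intro a
    rw [LinearMap.comp_apply, LinearMap.single_apply, LinearMap.comp_apply, LinearMap.single_apply,
      LinearMap.zero_apply]
    have h3 : (Pi.single f a : T → A) = a • (Pi.single f 1 : T → A) := by
      funext g
      simp [Pi.single_apply]
    rw [h3, map_smul, h0 f, smul_zero]
  have hmem : (fun f : T => if f.1 = f₀ then (1 : A) else 0) ∈ Submodule.span A (Set.range v) := by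
    rw [htop]; trivial
  obtain ⟨β, hβ⟩ := Finsupp.mem_span_range_iff_exists_finsupp.1 hmem
  refine ⟨β, fun f hf => ?_⟩
  have h4 := congrFun hβ ⟨f, hf⟩
  simp only at h4
  rw [← h4, Finsupp.sum, Finsupp.sum, Finset.sum_apply]
  rfl

theorem extw_span (D : Sec k Ω) (x : Ω) :
    x ∈ Submodule.span (LL D) (Set.range (fun a : Acl k Ω => (a : Ω))) := by
  classical
  obtain ⟨E₀, hE₀⟩ := D.fin x
  have halg : ∀ x : Acl k Ω, IsIntegral k x := fun x =>
    (Algebra.IsAlgebraic.isAlgebraic (R := k) x).isIntegral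
  let E : IntermediateField k (Acl k Ω) := IntermediateField.adjoin k (E₀ : Set (Acl k Ω))
  have : FiniteDimensional k E := IntermediateField.finiteDimensional_adjoin fun x _ => halg x
  let r : GG k Ω → (E →ₐ[k] Acl k Ω) := fun h => (h : Acl k Ω →ₐ[k] Acl k Ω).comp E.val
  have hr : ∀ (h : GG k Ω) (x : E), r h x = h (x : Acl k Ω) := fun h x => rfl
  have : Fintype (E →ₐ[k] Acl k Ω) := Fintype.ofFinite _
  let T : Finset (E →ₐ[k] Acl k Ω) := univ.filter fun f => ∃ h, r h = f
  have hT : ∀ f, f ∈ T ↔ ∃ h, r h = f := fun f => by simp [T]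
  have hrE : ∀ g h : GG k Ω, r g = r h → D.s g x = D.s h x := by
    intro g h he
    have h1 : D.s (h⁻¹ * g) x = x := by
      apply hE₀
      intro a ha
      have ha' : a ∈ E := IntermediateField.subset_adjoin k _ ha
      have hgh : g a = h a := congrArg (fun f => f ⟨a, ha'⟩) he
      rw [AlgEquiv.mul_apply, hgh, ← AlgEquiv.mul_apply, inv_mul_cancel]
      rfl
    have h3 : g = h * (h⁻¹ * g) := by rw [mul_inv_cancel_left]
    rw [h3, map_mul, AlgEquiv.mul_apply, h1]
  let d : (E →ₐ[k] Acl k Ω) → GG k Ω := fun f =>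
    if h : ∃ h, r h = f then h.choose else 1
  have hd2 : ∀ f ∈ T, r (d f) = f := by
    intro f hf
    have h := (hT f).1 hf
    simp only [d, dif_pos h]
    exact h.choose_spec
  obtain ⟨β, hβ⟩ := extw_dual T (r 1)
  -- the coefficients
  let t : E → Ω := fun α => ∑ f ∈ T, D.s (d f) x * ((f α : Acl k Ω) : Ω)
  have hσ : ∀ g : GG k Ω, ∀ f ∈ T, (g : Acl k Ω →ₐ[k] Acl k Ω).comp f ∈ T := by
    intro g f hf
    rw [hT]
    refine ⟨g * d f, ?_⟩
    apply AlgHom.ext
    intro x
    have h3 := congrArg (fun F => F x) (hd2 f hf)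
    rw [hr, AlgEquiv.mul_apply]
    change g (r (d f) x) = g (f x)
    exact congrArg g h3
  have ht : ∀ α, t α ∈ LL D := by
    intro α g _
    simp only [t]
    rw [map_sum]
    refine Finset.sum_bij (fun f _ => (g : Acl k Ω →ₐ[k] Acl k Ω).comp f) (hσ g) ?_ ?_ ?_
    · intro f hf f' hf' he
      apply AlgHom.ext
      intro x
      have h3 := congrArg (fun F => F x) he
      exact g.injective h3
    · intro f hf
      refine ⟨((g⁻¹ : GG k Ω) : Acl k Ω →ₐ[k] Acl k Ω).comp f, hσ _ f hf, ?_⟩
      apply AlgHom.ext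
      intro x
      change g (g⁻¹ (f x)) = f x
      rw [← AlgEquiv.mul_apply, mul_inv_cancel]
      rfl
    · intro f hf
      have h4 : D.s (d ((g : Acl k Ω →ₐ[k] Acl k Ω).comp f)) x = D.s (g * d f) x := by
        apply hrE
        rw [hd2 _ (hσ g f hf)]
        apply AlgHom.ext
        intro x
        have h3 := congrArg (fun F => F x) (hd2 f hf)
        rw [hr, AlgEquiv.mul_apply]
        change g (f x) = g (r (d f) x)
        exact congrArg g h3.symm
      rw [h4, map_mul, map_mul, AlgEquiv.mul_apply, D.ext]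
      rfl
  have hx : x = β.sum fun α c => (⟨t α, ht α⟩ : LL D) • ((c : Acl k Ω) : Ω) := by
    have h1 : D.s (d (r 1)) x = x := by
      have h1T : r 1 ∈ T := (hT _).2 ⟨1, rfl⟩
      rw [hrE _ 1 (hd2 _ h1T), map_one]
      rfl
    have h2 : ∑ f ∈ T, D.s (d f) x * (if f = r 1 then (1 : Ω) else 0) = x := by
      have h1T : r 1 ∈ T := (hT _).2 ⟨1, rfl⟩
      rw [Finset.sum_eq_single (r 1)]
      · rw [if_pos rfl, mul_one, h1]
      · intro f _ hf
        rw [if_neg hf, mul_zero]
      · intro h
        exact absurd h1T h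
    have h3 : ∀ f ∈ T, (if f = r 1 then (1 : Ω) else 0) =
        ∑ α ∈ β.support, ((β α : Acl k Ω) : Ω) * ((f α : Acl k Ω) : Ω) := by
      intro f hf
      have h4 := congrArg (fun z : Acl k Ω => (z : Ω)) (hβ f hf)
      rw [Finsupp.sum] at h4
      have h5 : ((∑ α ∈ β.support, β α * f α : Acl k Ω) : Ω) =
          ∑ α ∈ β.support, ((β α : Acl k Ω) : Ω) * ((f α : Acl k Ω) : Ω) := by
        push_cast
        rfl
      rw [← h5, h4]
      split_ifs <;> simp
    rw [Finsupp.sum]
    conv_lhs => rw [← h2]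
    rw [Finset.sum_congr rfl fun f hf => by rw [h3 f hf]]
    simp only [Finset.mul_sum]
    rw [Finset.sum_comm]
    refine Finset.sum_congr rfl fun α _ => ?_
    change _ = t α * ((β α : Acl k Ω) : Ω)
    simp only [t]
    rw [Finset.sum_mul]
    refine Finset.sum_congr rfl fun f _ => ?_
    ring
  rw [hx]
  refine Submodule.sum_mem _ fun α _ => Submodule.smul_mem _ _ (Submodule.subset_span ⟨_, rfl⟩)

theorem extw_basis (D : Sec k Ω) {ι : Type} (b : Module.Basis ι k (Acl k Ω)) (x : Ω) :
    x ∈ Submodule.span (LL D) (Set.range (fun i => ((b i : Acl k Ω) : Ω))) := by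
  have h1 : ∀ a : Acl k Ω, (a : Ω) ∈
      Submodule.span (LL D) (Set.range (fun i => ((b i : Acl k Ω) : Ω))) := by
    intro a
    have h2 : a ∈ Submodule.span k (Set.range b) := by
      rw [b.span_eq]; trivial
    have h3 : (Acl k Ω).val.toLinearMap a ∈
        (Submodule.span k (Set.range b)).map (Acl k Ω).val.toLinearMap :=
      Submodule.mem_map_of_mem h2
    rw [Submodule.map_span, ← Set.range_comp] at h3
    exact Submodule.span_le_restrictScalars k (LL D) _ h3
  have h4 := extw_span D x
  have h5 : Submodule.span (LL D) (Set.range (fun a : Acl k Ω => (a : Ω))) ≤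
      Submodule.span (LL D) (Set.range (fun i => ((b i : Acl k Ω) : Ω))) := by
    rw [Submodule.span_le]
    rintro _ ⟨a, rfl⟩
    exact h1 a
  exact h5 h4

/-- extension to `Ω` of a valuation ring of `LL D` -/
theorem extw_exists (D : Sec k Ω) (C : ValuationSubring (LL D)) :
    ∃ W : ValuationSubring Ω, ∀ x : LL D, (x : Ω) ∈ W ↔ x ∈ C := by
  let f : LL D →+* Ω := (LL D).val.toRingHom
  have hf : ∀ x : LL D, f x = (x : Ω) := fun x => rfl
  obtain ⟨W, hW⟩ := LocalSubring.exists_le_valuationSubring (C.toLocalSubring.map f)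
  rw [LocalSubring.le_def] at hW
  obtain ⟨hle, hloc⟩ := hW
  have h1 : ∀ x : LL D, x ∈ C → (x : Ω) ∈ W := by
    intro x hx
    apply hle
    exact ⟨x, hx, rfl⟩
  refine ⟨W, fun x => ⟨fun hx => ?_, h1 x⟩⟩
  by_contra hxC
  have hx0 : x ≠ 0 := by
    rintro rfl
    exact hxC (zero_mem C)
  have hinv : x⁻¹ ∈ C := (C.mem_or_inv_mem x).resolve_left hxC
  have hxΩ : (x : Ω) ≠ 0 := fun h => hx0 (Subtype.ext h)
  -- the inverse is a unit of `W`
  let y : (C.toLocalSubring.map f).toSubring := ⟨f x⁻¹, ⟨x⁻¹, hinv, rfl⟩⟩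
  have hu : IsUnit (Subring.inclusion hle y) := by
    refine isUnit_iff_exists_inv.2 ⟨⟨(x : Ω), hx⟩, ?_⟩
    apply Subtype.ext
    change f x⁻¹ * (x : Ω) = 1
    rw [map_inv₀, hf, inv_mul_cancel₀ hxΩ]
  have hu2 := hloc.map_nonunit y hu
  obtain ⟨z, hz⟩ := isUnit_iff_exists_inv.1 hu2
  obtain ⟨w, hw, hwz⟩ := z.2
  have h2 : f x⁻¹ * f w = 1 := by
    have := congrArg (fun q : (C.toLocalSubring.map f).toSubring => (q : Ω)) hz
    rw [hwz]
    exact this
  have h3 : x⁻¹ * w = 1 := by
    apply f.injective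
    rw [map_mul, h2, map_one]
  have h4 : w = x := by
    have := (eq_inv_of_mul_eq_one_right h3)
    rw [this, inv_inv]
  rw [h4] at hw
  exact hxC hw

end

theorem st_EXTW : ST_EXTW := by
  intro k Ω _ _ _ _ _ D C hk hres
  classical
  obtain ⟨W, hW⟩ := extw_exists D C
  refine ⟨W, hW, ?_⟩
  have hkW : ∀ c : k, algebraMap k Ω c ∈ W := fun c => (hW (algebraMap k (LL D) c)).2 (hk c)
  have hvk : ∀ x : LL D, C.valuation x < 1 → W.valuation (x : Ω) < 1 := by
    intro x hx
    by_cases hx0 : x = 0
    · rw [hx0]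
      simp
    have hxC : x ∈ C := (C.valuation_le_one_iff x).1 hx.le
    have h1 : W.valuation (x : Ω) ≤ 1 := (W.valuation_le_one_iff _).2 ((hW x).2 hxC)
    refine lt_of_le_of_ne h1 fun h => ?_
    have h2 : W.valuation ((x⁻¹ : LL D) : Ω) ≤ 1 := by
      push_cast
      rw [map_inv₀, h, inv_one]
    have h3 : x⁻¹ ∈ C := (hW _).1 ((W.valuation_le_one_iff _).1 h2)
    have h4 : C.valuation x⁻¹ ≤ 1 := (C.valuation_le_one_iff _).2 h3
    rw [map_inv₀] at h4
    have hv0 : C.valuation x ≠ 0 := (Valuation.ne_zero_iff _).2 hx0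
    have h5 : 1 ≤ C.valuation x := by
      have := mul_le_mul_right h4 (C.valuation x)
      rwa [mul_inv_cancel₀ hv0, mul_one] at this
    exact absurd hx (not_lt.2 h5)
  have hA : ∀ a : Acl k Ω, (a : Ω) ∈ W := by
    intro a
    have h1 : IsIntegral k (a : Ω) := mem_algebraicClosure_iff'.1 a.2
    obtain ⟨P, hP1, hP2⟩ := h1
    let φ : k →+* W := (algebraMap k Ω).codRestrict W.toSubring hkW
    have h2 : IsIntegral W (a : Ω) := by
      refine ⟨P.map φ, hP1.map φ, ?_⟩
      rw [Polynomial.eval₂_map]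
      exact hP2
    have h3 := IsIntegrallyClosed.isIntegral_iff.1 h2
    obtain ⟨w, hw⟩ := h3
    rw [← hw]
    exact w.2
  have hA1 : ∀ a : Acl k Ω, a ≠ 0 → W.valuation (a : Ω) = 1 := by
    intro a ha
    apply le_antisymm ((W.valuation_le_one_iff _).2 (hA a))
    have h1 : W.valuation ((a⁻¹ : Acl k Ω) : Ω) ≤ 1 := (W.valuation_le_one_iff _).2 (hA a⁻¹)
    push_cast at h1
    rw [map_inv₀] at h1
    have hv0 : W.valuation (a : Ω) ≠ 0 := (Valuation.ne_zero_iff _).2 fun h => ha (Subtype.ext h)
    have := mul_le_mul_right h1 (W.valuation (a : Ω))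
    rwa [mul_inv_cancel₀ hv0, mul_one] at this
  -- the key claim
  have key : ∀ x : Ω, x ≠ 0 → ∃ l : LL D, l ≠ 0 ∧
      ∀ g : GG k Ω, W.valuation (D.s g x) = W.valuation (l : Ω) := by
    intro x hx
    let b := Module.Basis.ofVectorSpace k (Acl k Ω)
    obtain ⟨l, hl⟩ := Finsupp.mem_span_range_iff_exists_finsupp.1 (extw_basis D b x)
    have hne : l.support.Nonempty := by
      rw [Finset.nonempty_iff_ne_empty]
      intro h
      rw [Finsupp.sum, h, Finset.sum_empty] at hl
      exact hx hl.symm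
    obtain ⟨j, hj, hmax⟩ := Finset.exists_max_image l.support (fun i => C.valuation (l i)) hne
    have hlj : l j ≠ 0 := Finsupp.mem_support_iff.1 hj
    have hljΩ : ((l j : LL D) : Ω) ≠ 0 := fun h => hlj (Subtype.ext h)
    have hvj : C.valuation (l j) ≠ 0 := (Valuation.ne_zero_iff _).2 hlj
    have hq : ∀ i, i ∈ l.support → l i / l j ∈ C := by
      intro i hi
      rw [← C.valuation_le_one_iff, map_div₀]
      have h1 := hmax i hi
      have := mul_le_mul_left h1 (C.valuation (l j))⁻¹
      rwa [mul_inv_cancel₀ hvj, ← div_eq_mul_inv] at this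
    let c : _ → k := fun i => if h : i ∈ l.support ∧ i ≠ j then (hres _ (hq i h.1)).choose else 1
    have hc : ∀ i ∈ l.support, C.valuation (l i / l j - algebraMap k (LL D) (c i)) < 1 := by
      intro i hi
      by_cases hij : i = j
      · have : c i = 1 := by
          simp only [c]
          rw [dif_neg]
          rintro ⟨_, h⟩
          exact h hij
        rw [this, hij, div_self hlj, map_one, sub_self, map_zero]
        exact zero_lt_one
      · simp only [c]
        rw [dif_pos ⟨hi, hij⟩]
        exact (hres _ (hq i hi)).choose_spec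
    let a : Acl k Ω := ∑ i ∈ l.support, c i • b i
    have ha : a ≠ 0 := by
      intro h
      have h1 := linearIndependent_iff'.1 b.linearIndependent l.support c h j hj
      simp only [c] at h1
      rw [dif_neg (fun h => h.2 rfl)] at h1
      exact one_ne_zero h1
    refine ⟨l j, hlj, fun g => ?_⟩
    have hfix : ∀ y : LL D, D.s g (y : Ω) = (y : Ω) := by
      intro y
      exact y.2 g (by intro a ha; exact absurd ha (Set.notMem_empty a))
    have h1 : D.s g x = (l j : Ω) * (((g a : Acl k Ω) : Ω) +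
        ∑ i ∈ l.support, ((l i / l j - algebraMap k (LL D) (c i) : LL D) : Ω) *
          ((g (b i) : Acl k Ω) : Ω)) := by
      have h2 : ((g a : Acl k Ω) : Ω) =
          ∑ i ∈ l.support, algebraMap k Ω (c i) * ((g (b i) : Acl k Ω) : Ω) := by
        simp only [a]
        rw [map_sum]
        push_cast
        refine Finset.sum_congr rfl fun i _ => ?_
        rw [Algebra.smul_def, map_mul, g.commutes]
        rfl
      rw [h2, ← Finset.sum_add_distrib, Finset.mul_sum, ← hl, Finsupp.sum, map_sum]
      refine Finset.sum_congr rfl fun i _ => ?_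
      have h3 : (l i • ((b i : Acl k Ω) : Ω)) = (l i : Ω) * ((b i : Acl k Ω) : Ω) := rfl
      rw [h3, map_mul, hfix, D.ext]
      push_cast
      field_simp
      ring
    have h5 : W.valuation (∑ i ∈ l.support,
        ((l i / l j - algebraMap k (LL D) (c i) : LL D) : Ω) * ((g (b i) : Acl k Ω) : Ω)) < 1 := by
      apply Valuation.map_sum_lt _ one_ne_zero
      intro i hi
      rw [map_mul]
      have h6 := hvk _ (hc i hi)
      have h7 : W.valuation ((g (b i) : Acl k Ω) : Ω) ≤ 1 := (W.valuation_le_one_iff _).2 (hA _)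
      calc _ ≤ W.valuation ((l i / l j - algebraMap k (LL D) (c i) : LL D) : Ω) * 1 :=
            mul_le_mul_right h7 _
        _ < 1 := by rw [mul_one]; exact h6
    have h8 : W.valuation ((g a : Acl k Ω) : Ω) = 1 :=
      hA1 _ ((map_ne_zero_iff _ g.injective).2 ha)
    rw [h1, map_mul, Valuation.map_add_eq_of_lt_left _ (by rw [h8]; exact h5), h8, mul_one]
  intro g x
  by_cases hx : x = 0
  · rw [hx, map_zero]
  obtain ⟨l, hl, hg⟩ := key x hx
  rw [← W.valuation_le_one_iff, ← W.valuation_le_one_iff, hg g]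
  have h1 := hg 1
  rw [map_one] at h1
  have h2 : W.valuation x = W.valuation (l : Ω) := h1
  rw [h2]

end Pool.Agent.Helper14.BSC
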