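import Pool.Agent.Helper14.BSC.Stmts

set_option autoImplicit false

/-!
# Module KUM: Kummer theory of the fixed fields
-/

namespace Pool.Agent.Helper14.BSC

open Finset

section

variable {k Ω : Type} [Field k] [Field Ω] [Algebra k Ω]

/-- descent: a 1-cocycle `c` of `H = Stab S` with values in `Acl` which only depends on the restriction to a
finite set is a coboundary -/
theorem kum_h90 (S : Set (Acl k Ω)) (E₀ : Finset (Acl k Ω)) (c : GG k Ω → Acl k Ω)
    (hc0 : ∀ h, c h ≠ 0)
    (hc : ∀ g h : GG k Ω, g ∈ Stab S → h ∈ Stab S → c (g * h) = g (c h) * c g)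
    (hE : ∀ g h : GG k Ω, g ∈ Stab S → h ∈ Stab S → (∀ a ∈ E₀, g a = h a) → c g = c h) :
    ∃ b : Acl k Ω, b ≠ 0 ∧ ∀ g ∈ Stab S, g b * c g = b := by
  classical
  have halg : ∀ x : Acl k Ω, IsIntegral k x := fun x =>
    (Algebra.IsAlgebraic.isAlgebraic (R := k) x).isIntegral
  let E : IntermediateField k (Acl k Ω) := IntermediateField.adjoin k (E₀ : Set (Acl k Ω))
  have : FiniteDimensional k E := IntermediateField.finiteDimensional_adjoin fun x _ => halg x
  let r : GG k Ω → (E →ₐ[k] Acl k Ω) := fun h => (h : Acl k Ω →ₐ[k] Acl k Ω).comp E.val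
  have hr : ∀ (h : GG k Ω) (x : E), r h x = h (x : Acl k Ω) := fun h x => rfl
  have : Fintype (E →ₐ[k] Acl k Ω) := Fintype.ofFinite _
  let T : Finset (E →ₐ[k] Acl k Ω) := univ.filter fun f => ∃ h ∈ Stab S, r h = f
  have hT : ∀ f, f ∈ T ↔ ∃ h ∈ Stab S, r h = f := fun f => by simp [T]
  have hrE : ∀ g h : GG k Ω, g ∈ Stab S → h ∈ Stab S → r g = r h → c g = c h := by
    intro g h hg hh he
    apply hE g h hg hh
    intro a ha
    have ha' : a ∈ E := IntermediateField.subset_adjoin k _ ha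
    have := congrArg (fun f => f ⟨a, ha'⟩) he
    exact this
  let d : (E →ₐ[k] Acl k Ω) → GG k Ω := fun f =>
    if h : ∃ h ∈ Stab S, r h = f then h.choose else 1
  have hd1 : ∀ f ∈ T, d f ∈ Stab S := by
    intro f hf
    have h := (hT f).1 hf
    simp only [d, dif_pos h]
    exact h.choose_spec.1
  have hd2 : ∀ f ∈ T, r (d f) = f := by
    intro f hf
    have h := (hT f).1 hf
    simp only [d, dif_pos h]
    exact h.choose_spec.2
  -- independence of characters
  have hex : ∃ γ : E, ∑ f ∈ T, c (d f) * f γ ≠ 0 := by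
    by_contra hcon
    push Not at hcon
    have hli := linearIndependent_monoidHom E (Acl k Ω)
    have hinj : Function.Injective (fun f : E →ₐ[k] Acl k Ω => (f : E →* Acl k Ω)) := by
      intro f g hfg
      apply AlgHom.ext
      intro x
      exact congrArg (fun F : E →* Acl k Ω => F x) hfg
    have hli2 := hli.comp _ hinj
    rw [Fintype.linearIndependent_iff] at hli2
    have h0 := hli2 (fun f => if f ∈ T then c (d f) else 0) (by
      funext x
      have := hcon x
      rw [Finset.sum_apply]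
      simp only [Function.comp, Pi.smul_apply, smul_eq_mul, ite_mul, zero_mul]
      refine Eq.trans ?_ this
      rw [Finset.sum_ite_mem, Finset.univ_inter]
      rfl)
    have h1 : r 1 ∈ T := (hT _).2 ⟨1, (Stab S).one_mem, rfl⟩
    have h2 := h0 (r 1)
    rw [if_pos h1] at h2
    exact hc0 _ h2
  obtain ⟨γ, hγ⟩ := hex
  refine ⟨∑ f ∈ T, c (d f) * f γ, hγ, ?_⟩
  intro g hg
  rw [map_sum, Finset.sum_mul]
  have hσ : ∀ g ∈ Stab S, ∀ f ∈ T, (g : Acl k Ω →ₐ[k] Acl k Ω).comp f ∈ T := by
    intro g hg f hf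
    rw [hT]
    refine ⟨g * d f, (Stab S).mul_mem hg (hd1 f hf), ?_⟩
    apply AlgHom.ext
    intro x
    have h3 := congrArg (fun F => F x) (hd2 f hf)
    rw [hr, AlgEquiv.mul_apply]
    change g (r (d f) x) = g (f x)
    exact congrArg g h3
  refine Finset.sum_bij (fun f _ => (g : Acl k Ω →ₐ[k] Acl k Ω).comp f) (hσ g hg) ?_ ?_ ?_
  · intro f hf f' hf' he
    apply AlgHom.ext
    intro x
    have h3 := congrArg (fun F => F x) he
    exact g.injective h3
  · intro f hf
    refine ⟨((g⁻¹ : GG k Ω) : Acl k Ω →ₐ[k] Acl k Ω).comp f, hσ _ ((Stab S).inv_mem hg) f hf, ?_⟩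
    apply AlgHom.ext
    intro x
    change g (g⁻¹ (f x)) = f x
    rw [← AlgEquiv.mul_apply, mul_inv_cancel]
    rfl
  · intro f hf
    have h4 : c (d ((g : Acl k Ω →ₐ[k] Acl k Ω).comp f)) = c (g * d f) := by
      apply hrE _ _ (hd1 _ (hσ g hg f hf)) ((Stab S).mul_mem hg (hd1 f hf))
      rw [hd2 _ (hσ g hg f hf)]
      apply AlgHom.ext
      intro x
      have h3 := congrArg (fun F => F x) (hd2 f hf)
      rw [hr, AlgEquiv.mul_apply]
      change g (f x) = g (r (d f) x)
      exact congrArg g h3.symm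
    rw [h4, hc g (d f) hg (hd1 f hf), map_mul]
    change g (c (d f)) * g (f γ) * c g = g (c (d f)) * c g * g (f γ)
    ring

end

theorem st_KUM : ST_KUM := by
  intro k Ω _ _ _ _ _ D S n hn x hx
  have hxΩ : (x : Ω) ≠ 0 := fun h => hx (Subtype.ext h)
  obtain ⟨α, hα⟩ := IsAlgClosed.exists_pow_nat_eq (x : Ω) hn
  have hα0 : α ≠ 0 := by
    rintro rfl
    rw [zero_pow hn.ne'] at hα
    exact hxΩ hα.symm
  classical
  -- the cocycle
  have hroot : ∀ h : GG k Ω, h ∈ Stab S → (D.s h α / α) ^ n = 1 := by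
    intro h hh
    rw [div_pow, ← map_pow, hα, x.2 h hh, div_self hxΩ]
  have hmem : ∀ h : GG k Ω, h ∈ Stab S → D.s h α / α ∈ Acl k Ω := by
    intro h hh
    rw [mem_algebraicClosure_iff']
    apply IsIntegral.of_pow hn
    rw [hroot h hh]
    exact isIntegral_one
  let c : GG k Ω → Acl k Ω := fun h => if hh : h ∈ Stab S then ⟨D.s h α / α, hmem h hh⟩ else 1
  have hcc : ∀ h ∈ Stab S, ((c h : Acl k Ω) : Ω) = D.s h α / α := by
    intro h hh
    simp only [c, dif_pos hh]
  have hsα : ∀ h ∈ Stab S, D.s h α = (c h : Ω) * α := by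
    intro h hh
    rw [hcc h hh, div_mul_cancel₀ _ hα0]
  obtain ⟨E₀, hE₀⟩ := D.fin α
  obtain ⟨b, hb0, hb⟩ := kum_h90 S E₀ c (by
      intro h
      by_cases hh : h ∈ Stab S
      · intro h0
        have h1 := hcc h hh
        rw [h0] at h1
        have h2 : D.s h α ≠ 0 := (map_ne_zero_iff _ (D.s h).injective).2 hα0
        exact (div_ne_zero h2 hα0) h1.symm
      · simp only [c, dif_neg hh]
        exact one_ne_zero)
    (by
      intro g h hg hh
      apply Subtype.ext
      have hgh : g * h ∈ Stab S := (Stab S).mul_mem hg hh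
      have h1 : D.s (g * h) α = ((g (c h) : Acl k Ω) : Ω) * ((c g : Ω) * α) := by
        rw [map_mul, AlgEquiv.mul_apply, hsα h hh, map_mul, D.ext, hsα g hg]
      rw [hcc _ hgh, h1]
      push_cast
      rw [← mul_assoc, mul_div_cancel_right₀ _ hα0])
    (by
      intro g h hg hh hgh
      apply Subtype.ext
      rw [hcc g hg, hcc h hh]
      have h1 : D.s (h⁻¹ * g) α = α := by
        apply hE₀
        intro a ha
        rw [AlgEquiv.mul_apply, hgh a ha, ← AlgEquiv.mul_apply, inv_mul_cancel]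
        rfl
      have h2 : D.s g α = D.s h α := by
        have h3 : g = h * (h⁻¹ * g) := by rw [mul_inv_cancel_left]
        rw [h3, map_mul, AlgEquiv.mul_apply, h1]
      rw [h2])
  have hbΩ : (b : Ω) ≠ 0 := fun h => hb0 (Subtype.ext h)
  have hcn : ∀ g ∈ Stab S, (c g) ^ n = 1 := by
    intro g hg
    apply Subtype.ext
    push_cast
    rw [hcc g hg]
    exact hroot g hg
  have hc0 : ∀ g ∈ Stab S, c g ≠ 0 := by
    intro g hg h0
    have := hcn g hg
    rw [h0, zero_pow hn.ne'] at this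
    exact zero_ne_one this
  have hgb : ∀ g ∈ Stab S, g b = b / c g := by
    intro g hg
    rw [eq_div_iff (hc0 g hg)]
    exact hb g hg
  -- the constant
  have hcF : (b⁻¹) ^ n ∈ FF S := by
    intro g hg
    rw [map_pow, map_inv₀, hgb g hg, inv_div, div_pow, hcn g hg, inv_pow, one_div]
  have hyN : α * (b : Ω) ∈ NN D S := by
    intro g hg
    rw [map_mul, D.ext, hsα g hg, hgb g hg]
    push_cast
    have : (c g : Ω) ≠ 0 := fun h => hc0 g hg (Subtype.ext h)
    field_simp
  refine ⟨⟨(b⁻¹) ^ n, hcF⟩, ?_, ⟨α * (b : Ω), hyN⟩, ?_, ?_⟩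
  · intro h
    have h1 := congrArg (fun z : FF S => (z : Acl k Ω)) h
    exact pow_ne_zero n (inv_ne_zero hb0) h1
  · intro h
    have h1 := congrArg (fun z : NN D S => (z : Ω)) h
    exact mul_ne_zero hα0 hbΩ h1
  · apply Subtype.ext
    push_cast
    rw [coe_inc]
    push_cast
    rw [mul_pow, hα, inv_pow]
    field_simp

end Pool.Agent.Helper14.BSC
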