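import Pool.Agent.Helper14.BSC.Stmts2

set_option autoImplicit false
set_option linter.unusedSectionVars false

/-!
# Module TSX: the system of all embeddings over a given embedding of `k₁`
-/

namespace Pool.Agent.Helper14.BSC

open Finset Polynomial
open scoped IntermediateField

section

variable {k k₁ : Type} [Field k] [Field k₁] [CharZero k] [Algebra k₁ k] [FiniteDimensional k₁ k]

theorem tsx_charZero (k k₁ : Type) [Field k] [Field k₁] [CharZero k] [Algebra k₁ k] :
    CharZero k₁ :=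
  (RingHom.charZero_iff (algebraMap k₁ k).injective).2 inferInstance

/-- the field generated by the image of `k` over `E` -/
theorem tsx_E1 (hN : ST_NRM) (p : ℕ) [Fact p.Prime] (σ : k →+* ℂ_[p])
    (E : IntermediateField ℚ_[p] ℂ_[p]) [FiniteDimensional ℚ_[p] E]
    (hσ : ∀ a : k₁, σ (algebraMap k₁ k a) ∈ E) :
    ∃ E₁ : IntermediateField ℚ_[p] ℂ_[p], FiniteDimensional ℚ_[p] E₁ ∧ (∀ x, σ x ∈ E₁) ∧
      ∀ w ∈ E₁, ∃ w₁ ∈ E, ‖w‖ ^ (Module.finrank k₁ k).factorial = ‖w₁‖ := by
  have hc : CharZero k₁ := tsx_charZero k k₁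
  obtain ⟨ξ, hξ⟩ := Field.exists_primitive_element k₁ k
  let j' : k₁ →+* E := (σ.comp (algebraMap k₁ k)).codRestrict E.toSubring hσ
  have hξi : IsIntegral k₁ ξ := Algebra.IsIntegral.isIntegral ξ
  have hroot : Polynomial.aeval (σ ξ) ((minpoly k₁ ξ).map j') = 0 := by
    rw [Polynomial.aeval_def, Polynomial.eval₂_map]
    have h1 := congrArg σ (minpoly.aeval k₁ ξ)
    rw [map_zero, Polynomial.aeval_def, Polynomial.hom_eval₂] at h1
    exact h1
  have hmon : ((minpoly k₁ ξ).map j').Monic := (minpoly.monic hξi).map j'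
  have hint : IsIntegral E (σ ξ) := ⟨_, hmon, hroot⟩
  have hfd : FiniteDimensional E E⟮σ ξ⟯ := IntermediateField.adjoin.finiteDimensional hint
  have hdeg : Module.finrank E E⟮σ ξ⟯ ≤ Module.finrank k₁ k := by
    rw [IntermediateField.adjoin.finrank hint]
    calc (minpoly E (σ ξ)).natDegree ≤ ((minpoly k₁ ξ).map j').natDegree :=
          Polynomial.natDegree_le_of_dvd (minpoly.dvd E _ hroot) hmon.ne_zero
      _ = (minpoly k₁ ξ).natDegree := (minpoly.monic hξi).natDegree_map j'
      _ ≤ Module.finrank k₁ k := minpoly.natDegree_le ξ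
  let E₁ : IntermediateField ℚ_[p] ℂ_[p] := IntermediateField.restrictScalars ℚ_[p] E⟮σ ξ⟯
  have hfd1 : FiniteDimensional ℚ_[p] E₁ := by
    have h2 : FiniteDimensional ℚ_[p] E⟮σ ξ⟯ := FiniteDimensional.trans ℚ_[p] E E⟮σ ξ⟯
    exact h2
  have hE : ∀ a ∈ E, a ∈ E₁ := by
    intro a ha
    exact E⟮σ ξ⟯.algebraMap_mem ⟨a, ha⟩
  have hmem : ∀ x, σ x ∈ E₁ := by
    intro x
    let S : IntermediateField k₁ k := (E₁.toSubfield.comap σ).toIntermediateField
      (fun a => hE _ (hσ a))
    have h3 : ξ ∈ S := by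
      change σ ξ ∈ E⟮σ ξ⟯
      exact IntermediateField.mem_adjoin_simple_self E (σ ξ)
    have h4 : k₁⟮ξ⟯ ≤ S := by
      rw [IntermediateField.adjoin_simple_le_iff]
      exact h3
    have h5 : x ∈ k₁⟮ξ⟯ := by rw [hξ]; trivial
    exact h4 h5
  refine ⟨E₁, hfd1, hmem, ?_⟩
  intro w hw
  let w' : E⟮σ ξ⟯ := ⟨w, hw⟩
  have hwi : IsIntegral E w' := Algebra.IsIntegral.isIntegral w'
  refine hN p E inferInstance (Module.finrank k₁ k) (minpoly E w') (minpoly.ne_zero hwi) ?_ w ?_
  · have : Module.Free E E⟮σ ξ⟯ := Module.Free.of_divisionRing _ _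
    exact (minpoly.natDegree_le w').trans hdeg
  · have h6 := minpoly.aeval E w'
    have h7 := congrArg (algebraMap E⟮σ ξ⟯ ℂ_[p]) h6
    rw [map_zero, ← Polynomial.aeval_algebraMap_apply] at h7
    exact h7

end

theorem st_TSX (hN : ST_NRM) : ST_TSX := by
  intro k k₁ _ _ _ _ _ p _ j E hE hj
  classical
  have hc : CharZero k₁ := tsx_charZero k k₁
  let _ : Algebra k₁ ℂ_[p] := j.toAlgebra
  have hcard : Fintype.card (k →ₐ[k₁] ℂ_[p]) = Module.finrank k₁ k := AlgHom.card k₁ k ℂ_[p]
  let e : Fin (Module.finrank k₁ k) ≃ (k →ₐ[k₁] ℂ_[p]) :=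
    (finCongr hcard.symm).trans (Fintype.equivFin _).symm
  have hE1 : ∀ i, ∃ E₁ : IntermediateField ℚ_[p] ℂ_[p], FiniteDimensional ℚ_[p] E₁ ∧
      (∀ x, (e i : k →+* ℂ_[p]) x ∈ E₁) ∧
      ∀ w ∈ E₁, ∃ w₁ ∈ E, ‖w‖ ^ (Module.finrank k₁ k).factorial = ‖w₁‖ := by
    intro i
    refine tsx_E1 hN p (e i : k →+* ℂ_[p]) E ?_
    intro a
    have : (e i : k →+* ℂ_[p]) (algebraMap k₁ k a) = j a := (e i).commutes a
    rw [this]
    exact hj a
  choose F hF1 hF2 hF3 using hE1
  let T : TS k k₁ p :=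
    { n := Module.finrank k₁ k
      deg := rfl
      pos := Module.finrank_pos
      σ := fun i => (e i : k →+* ℂ_[p])
      j := j
      res := fun i a => (e i).commutes a
      norm := by
        intro x
        have h1 := Algebra.norm_eq_prod_embeddings k₁ ℂ_[p] x
        rw [← Equiv.prod_comp e] at h1
        exact h1.symm
      trace := by
        intro x
        have h1 := trace_eq_sum_embeddings (K := k₁) (L := k) ℂ_[p] (x := x)
        rw [← Equiv.sum_comp e] at h1
        exact h1.symm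
      indep := by
        intro y hy
        have hli := linearIndependent_monoidHom k ℂ_[p]
        have hinj : Function.Injective (fun i => ((e i : k →ₐ[k₁] ℂ_[p]) : k →* ℂ_[p])) := by
          intro i i' hii
          apply e.injective
          apply AlgHom.ext
          intro x
          exact congrArg (fun G : k →* ℂ_[p] => G x) hii
        have hli2 := hli.comp _ hinj
        rw [Fintype.linearIndependent_iff] at hli2
        funext i
        refine hli2 y ?_ i
        funext b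
        rw [Finset.sum_apply]
        refine Eq.trans ?_ (hy b)
        refine Finset.sum_congr rfl fun i _ => ?_
        change y i * (e i) b = (e i) b * y i
        ring
      fin := by
        have : ∀ i, FiniteDimensional ℚ_[p] (F i) := hF1
        refine ⟨⨆ i, F i, inferInstance, fun i x => ?_⟩
        exact (le_iSup F i) (hF2 i x) }
  refine ⟨T, rfl, ?_, fun i => ⟨F i, hF1 i, hF2 i, hF3 i⟩⟩
  intro σ hσ
  let σ' : k →ₐ[k₁] ℂ_[p] := { σ with commutes' := hσ }
  refine ⟨e.symm σ', ?_⟩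
  change ((e (e.symm σ') : k →ₐ[k₁] ℂ_[p]) : k →+* ℂ_[p]) = σ
  rw [e.apply_symm_apply]
  rfl

end Pool.Agent.Helper14.BSC
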