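import Pool.Agent.Helper14.BSC.Stmts2

set_option autoImplicit false
set_option linter.unusedSectionVars false

/-!
# Module UPOL: products of roots of conjugates of `R` are roots of a fixed polynomial
-/

namespace Pool.Agent.Helper14.BSC

open Finset Polynomial

section

variable (k k₁ : Type) [Field k] [Field k₁] [CharZero k] [Algebra k₁ k] [FiniteDimensional k₁ k]

/-- all roots of all conjugates of `R` -/
noncomputable def upol_roots (R : Polynomial k) : Finset (AlgebraicClosure k₁) := by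
  classical
  exact (Set.toFinite (Set.univ : Set (k →ₐ[k₁] AlgebraicClosure k₁))).toFinset.biUnion
    fun ε => (R.map (ε : k →+* AlgebraicClosure k₁)).roots.toFinset

theorem upol_mem (R : Polynomial k) (hR : R ≠ 0) (x : AlgebraicClosure k₁) :
    x ∈ upol_roots k k₁ R ↔ ∃ ε : k →ₐ[k₁] AlgebraicClosure k₁,
      (R.map (ε : k →+* AlgebraicClosure k₁)).eval x = 0 := by
  classical
  unfold upol_roots
  rw [Finset.mem_biUnion]
  constructor
  · rintro ⟨ε, _, h⟩
    rw [Multiset.mem_toFinset] at h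
    exact ⟨ε, (mem_roots'.1 h).2⟩
  · rintro ⟨ε, h⟩
    refine ⟨ε, by simp, ?_⟩
    rw [Multiset.mem_toFinset, mem_roots']
    exact ⟨(Polynomial.map_ne_zero_iff (ε : k →+* AlgebraicClosure k₁).injective).2 hR, h⟩

theorem upol_ne (R : Polynomial k) (hR : R.eval 0 ≠ 0) {x : AlgebraicClosure k₁}
    (hx : x ∈ upol_roots k k₁ R) : x ≠ 0 := by
  have hR0 : R ≠ 0 := by
    rintro rfl
    simp at hR
  rintro rfl
  obtain ⟨ε, h⟩ := (upol_mem k k₁ R hR0 _).1 hx
  have h1 : (R.map (ε : k →+* AlgebraicClosure k₁)).eval 0 = ε (R.eval 0) := by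
    rw [← map_zero (ε : k →+* AlgebraicClosure k₁), Polynomial.eval_map, Polynomial.eval₂_hom]
    rfl
  rw [h1] at h
  exact hR ((map_eq_zero_iff _ (ε : k →+* AlgebraicClosure k₁).injective).1 h)

/-- the polynomial -/
noncomputable def upol_U (n : ℕ) (R : Polynomial k) : Polynomial k₁ := by
  classical
  exact ∏ t ∈ Fintype.piFinset (fun _ : Fin n => upol_roots k k₁ R), minpoly k₁ (∏ i, t i)

theorem upol_U_ne (n : ℕ) (R : Polynomial k) (hR : R.eval 0 ≠ 0) :
    (upol_U k k₁ n R).eval 0 ≠ 0 := by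
  classical
  unfold upol_U
  rw [Polynomial.eval_prod]
  refine Finset.prod_ne_zero_iff.2 fun t ht => ?_
  rw [Fintype.mem_piFinset] at ht
  rw [← Polynomial.coeff_zero_eq_eval_zero]
  exact minpoly.coeff_zero_ne_zero (Algebra.IsIntegral.isIntegral _)
    (Finset.prod_ne_zero_iff.2 fun i _ => upol_ne k k₁ R hR (ht i))

theorem upol_aux {C : Type} [Field C] [IsAlgClosed C] [Algebra k₁ C] (n : ℕ) (R : Polynomial k)
    (hR : R.eval 0 ≠ 0) (σ : Fin n → (k →ₐ[k₁] C)) (ρ : Fin n → C)
    (h : ∀ i, (R.map (σ i : k →+* C)).eval (ρ i) = 0) :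
    Polynomial.aeval (∏ i, ρ i) (upol_U k k₁ n R) = 0 := by
  classical
  have hR0 : R ≠ 0 := by
    rintro rfl
    simp at hR
  let A := algebraicClosure k₁ C
  have hσA : ∀ i x, σ i x ∈ A := by
    intro i x
    rw [mem_algebraicClosure_iff]
    exact (isAlgebraic_algHom_iff (σ i) (σ i).injective).2 (Algebra.IsAlgebraic.isAlgebraic x)
  have hρA : ∀ i, ρ i ∈ A := by
    intro i
    let σ' : k →ₐ[k₁] A := (σ i).codRestrict A.toSubalgebra (hσA i)
    have h1 : IsAlgebraic A (ρ i) := by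
      refine ⟨R.map (σ' : k →+* A), (Polynomial.map_ne_zero_iff
        (σ' : k →+* A).injective).2 hR0, ?_⟩
      rw [Polynomial.aeval_def, Polynomial.eval₂_map]
      have := h i
      rw [Polynomial.eval_map] at this
      exact this
    have h2 : ρ i ∈ algebraicClosure A C := mem_algebraicClosure_iff.2 h1
    rw [algebraicClosure.algebraicClosure_eq_bot] at h2
    obtain ⟨a, ha⟩ := IntermediateField.mem_bot.1 h2
    rw [← ha]
    exact a.2
  let e : A ≃ₐ[k₁] AlgebraicClosure k₁ := IsAlgClosure.equiv k₁ A (AlgebraicClosure k₁)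
  let t : Fin n → AlgebraicClosure k₁ := fun i => e ⟨ρ i, hρA i⟩
  have ht : t ∈ Fintype.piFinset (fun _ : Fin n => upol_roots k k₁ R) := by
    rw [Fintype.mem_piFinset]
    intro i
    rw [upol_mem k k₁ R hR0]
    let σ' : k →ₐ[k₁] A := (σ i).codRestrict A.toSubalgebra (hσA i)
    refine ⟨(e : A →ₐ[k₁] AlgebraicClosure k₁).comp σ', ?_⟩
    have h1 : Polynomial.eval₂ (σ' : k →+* A) ⟨ρ i, hρA i⟩ R = 0 := by
      apply (algebraMap A C).injective
      rw [map_zero, Polynomial.hom_eval₂]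
      have := h i
      rw [Polynomial.eval_map] at this
      exact this
    have h2 := congrArg (e : A →+* AlgebraicClosure k₁) h1
    rw [map_zero, Polynomial.hom_eval₂] at h2
    rw [Polynomial.eval_map]
    exact h2
  unfold upol_U
  rw [map_prod]
  refine Finset.prod_eq_zero ht ?_
  have h3 : (∏ i, t i) = e (∏ i, ⟨ρ i, hρA i⟩) := by
    rw [map_prod]
  have h4 : minpoly k₁ (∏ i, t i) = minpoly k₁ (∏ i, (⟨ρ i, hρA i⟩ : A)) := by
    rw [h3]
    exact minpoly.algEquiv_eq e _
  rw [h4]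
  have h5 : (∏ i, ρ i) = algebraMap A C (∏ i, (⟨ρ i, hρA i⟩ : A)) := by
    rw [map_prod]
    rfl
  rw [h5, Polynomial.aeval_algebraMap_apply, minpoly.aeval, map_zero]

end

theorem st_UPOL : ST_UPOL := by
  intro k k₁ _ _ _ _ _ R hR
  refine ⟨upol_U k k₁ (Module.finrank k₁ k) R, upol_U_ne k k₁ _ R hR, ?_⟩
  intro p _ T ρ h
  let _ : Algebra k₁ ℂ_[p] := T.j.toAlgebra
  let σ : Fin T.n → (k →ₐ[k₁] ℂ_[p]) := fun i =>
    { T.σ i with commutes' := fun a => T.res i a }
  have hn : T.n = Module.finrank k₁ k := T.deg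
  rw [← hn]
  have := upol_aux k k₁ T.n R hR σ ρ h
  rw [Polynomial.aeval_def] at this
  rw [Polynomial.eval_map]
  exact this

end Pool.Agent.Helper14.BSC
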